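import Pool.Agent.Lib.TB53.Lim

/-! Smooth limit of bounded approximate solutions of a nonlinear first order system. -/

open scoped Topology ContDiff ENNReal
open Set MeasureTheory Metric Filter

set_option linter.unusedSectionVars false
set_option linter.unusedVariables false

noncomputable section

namespace Pool.Agent.Lib.HN53

open Pool.Agent.Lib.TB53

variable {V W : Type} [NormedAddCommGroup V] [NormedSpace ℝ V] [FiniteDimensional ℝ V]
  [MeasurableSpace V] [BorelSpace V] (μ : Measure V) [μ.IsAddHaarMeasure]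
  [NormedAddCommGroup W] [NormedSpace ℝ W] [FiniteDimensional ℝ W]

theorem av_fd {u : V → W} {r : V → ℝ} {c x : V} {ρ δ L : ℝ} (hδ : 0 < δ)
    (hu : ∀ z ∈ closedBall c ρ, ContDiffAt ℝ 1 u z) (hr : ContinuousOn r (closedBall c ρ))
    (r0 : ∀ z, 0 ≤ r z) (hL : ∀ z ∈ closedBall c ρ, ‖fderiv ℝ u z‖ ≤ r z + L)
    (hx : x ∈ ball c (ρ - δ)) :
    ‖av μ δ (fderiv ℝ u) x‖ ≤
      (∫ z in closedBall c ρ, r z ∂μ) / μ.real (closedBall (0 : V) δ) + L := by
  have hv := vol_pos μ hδ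
  have h3 := int_add μ hr hx
  have h4 := shift_le μ hr r0 hx
  have hc : IntegrableOn (fun _ : V => L) (closedBall (0 : V) δ) μ :=
    integrableOn_const (isCompact_closedBall _ _).measure_lt_top.ne
  rw [av, norm_smul, norm_inv, Real.norm_of_nonneg hv.le, inv_mul_le_iff₀ hv, mul_add,
    mul_div_cancel₀ _ hv.ne']
  refine (norm_integral_le_of_norm_le (h3.add hc) ?_).trans ?_
  · filter_upwards [ae_restrict_mem measurableSet_closedBall] with y hy
    exact hL _ (mem_add hx hy)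
  · rw [show (∫ y in closedBall (0 : V) δ, ((fun y => r (x + y)) + fun _ : V => L) y ∂μ) = _ from
      integral_add h3 hc, setIntegral_const, smul_eq_mul]
    exact add_le_add h4 le_rfl

theorem lip0 {ι : Type} (l : Filter ι) [l.NeBot] (u : ι → V → W) (r : ι → V → ℝ) (δ : ι → ℝ)
    (U : V → W) (c : V) (ρ L : ℝ) (hL : 0 ≤ L) (r0 : ∀ a z, 0 ≤ r a z)
    (hu : ∀ᶠ a in l, ContinuousOn (r a) (closedBall c ρ) ∧
      ∀ z ∈ closedBall c ρ, ContDiffAt ℝ 1 (u a) z ∧ ‖fderiv ℝ (u a) z‖ ≤ r a z + L)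
    (hδ : Tendsto δ l (𝓝[>] 0))
    (hU : ∀ x ∈ ball c ρ, Tendsto (fun a => av μ (δ a) (u a) x) l (𝓝 (U x)))
    (hr : Tendsto (fun a => ∫ z in closedBall c ρ, r a z ∂μ) l (𝓝 0))
    (hq : Tendsto (fun a => (∫ z in closedBall c ρ, r a z ∂μ) /
      μ.real (closedBall (0 : V) (δ a))) l (𝓝 0)) :
    ContinuousOn U (ball c ρ) ∧ ∀ K, IsCompact K → K ⊆ ball c ρ →
      Tendsto (fun a => ∫⁻ z in K, ‖u a z - U z‖ₑ ∂μ) l (𝓝 0) := by
  have hK := isCompact_closedBall c ρ
  obtain ⟨hδ0, hδp⟩ := tendsto_nhdsWithin_iff.1 hδ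
  have hin : ∀ s, s < ρ → ∀ᶠ a in l, ball c s ⊆ ball c (ρ - δ a) := fun s hs =>
    (hδ0.eventually (gt_mem_nhds (sub_pos.2 hs))).mono fun a ha => ball_subset_ball (by linarith)
  have hlip : ∀ s, s < ρ → ∀ᶠ a in l, ∀ x ∈ ball c s, ∀ y ∈ ball c s,
      ‖av μ (δ a) (u a) x - av μ (δ a) (u a) y‖ ≤ (1 + L) * ‖x - y‖ := fun s hs => by
    filter_upwards [hin s hs, hu, hδp, hq.eventually (gt_mem_nhds one_pos)]
      with a a1 a2 a3 a5 x hx y hy
    refine (convex_ball c s).norm_image_sub_le_of_norm_hasFDerivWithin_le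
      (f' := av μ (δ a) (fderiv ℝ (u a)))
      (fun z hz => ((der_av μ (fun z hz => (a2.2 z hz).1) (a1 hz)).const_smul _).hasFDerivWithinAt)
      (fun z hz => ?_) hy hx
    exact (av_fd μ a3 (fun z hz => (a2.2 z hz).1) a2.1 (r0 a) (fun z hz => (a2.2 z hz).2)
      (a1 hz)).trans (by linarith)
  have hun : ∀ s, s < ρ → ∀ ε, 0 < ε → ∀ᶠ a in l, ∀ x ∈ ball c s,
      ‖av μ (δ a) (u a) x - U x‖ ≤ ε := fun s hs ε hε =>
    unif (Λ := 1 + L) ((isCompact_closedBall c s).totallyBounded.subset ball_subset_closedBall)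
      (by positivity) (hlip s hs) (fun x hx => hU x (ball_subset_ball hs.le hx)) hε
  refine ⟨fun z hz => ?_, fun K h1 h2 => ?_⟩
  · obtain ⟨s, h1, h2⟩ := exists_between (mem_ball.1 hz)
    have h3 : LipschitzOnWith ⟨1 + L, by positivity⟩ U (ball c s) :=
      LipschitzOnWith.of_dist_le_mul fun x hx y hy => by
        rw [dist_eq_norm, dist_eq_norm]
        exact le_of_tendsto ((hU x (ball_subset_ball h2.le hx)).sub
          (hU y (ball_subset_ball h2.le hy))).norm ((hlip s h2).mono fun p hp => hp x hx y hy)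
    exact (h3.continuousOn.continuousAt (isOpen_ball.mem_nhds h1)).continuousWithinAt
  obtain ⟨s, hs, h3⟩ := exists_lt_subset_ball h1.isClosed h2
  set B : ℝ := 1 + μ.real (closedBall c ρ) * L with hB
  have hB0 : 0 < B := by positivity
  have hm : 0 ≤ μ.real K := measureReal_nonneg
  refine ENNReal.tendsto_nhds_zero.2 fun ε hε => ?_
  obtain ⟨e, he, he'⟩ : ∃ e : ℝ, 0 < e ∧ ENNReal.ofReal e ≤ ε := by
    rcases eq_or_ne ε ⊤ with rfl | h
    · exact ⟨1, one_pos, le_top⟩
    · exact ⟨ε.toReal, ENNReal.toReal_pos hε.ne' h, ENNReal.ofReal_toReal_le⟩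
  filter_upwards [hin s hs, hu, hδp, hδ0.eventually (gt_mem_nhds (show 0 < e / 2 / B by positivity)),
    hr.eventually (gt_mem_nhds one_pos), hun s hs (e / 2 / (μ.real K + 1)) (by positivity)]
    with a a1 a2 a3 a4 a5 a6
  have c1 := cont_fd fun z hz => (a2.2 z hz).1
  have b1 := av_close μ a3 (fun z hz => (a2.2 z hz).1) h1.measurableSet (h3.trans a1)
  have b2 : ∫ z in closedBall c ρ, ‖fderiv ℝ (u a) z‖ ∂μ ≤ B := by
    have i1 := a2.1.integrableOn_compact (μ := μ) hK
    have i2 : IntegrableOn (fun _ : V => L) (closedBall c ρ) μ :=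
      integrableOn_const hK.measure_lt_top.ne
    refine (setIntegral_mono_on (c1.norm.integrableOn_compact hK) (i1.add i2)
      measurableSet_closedBall fun z hz => (a2.2 z hz).2).trans ?_
    refine (integral_add i1 i2).trans_le ?_
    rw [setIntegral_const, smul_eq_mul]
    exact add_le_add a5.le le_rfl
  rw [← ofReal_integral_norm_eq_lintegral_enorm (c1.integrableOn_compact hK),
    ← ENNReal.ofReal_mul (le_of_lt a3)] at b1
  have b4 : δ a * ∫ z in closedBall c ρ, ‖fderiv ℝ (u a) z‖ ∂μ ≤ e / 2 :=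
    (mul_le_mul_of_nonneg_left b2 (le_of_lt a3)).trans ((lt_div_iff₀ hB0).1 a4).le
  calc _ ≤ ∫⁻ z in K, (‖u a z - av μ (δ a) (u a) z‖ₑ +
          ENNReal.ofReal (e / 2 / (μ.real K + 1))) ∂μ :=
        setLIntegral_mono' h1.measurableSet fun z hz => by
          rw [← sub_add_sub_cancel (u a z) (av μ (δ a) (u a) z) (U z)]
          refine (enorm_add_le _ _).trans (add_le_add le_rfl ?_)
          rw [← ofReal_norm]
          exact ENNReal.ofReal_le_ofReal (a6 z (h3 hz))
    _ ≤ ENNReal.ofReal (e / 2) + ENNReal.ofReal (e / 2) := by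
        rw [lintegral_add_right _ measurable_const, setLIntegral_const,
          ← ofReal_measureReal h1.measure_lt_top.ne, ← ENNReal.ofReal_mul (by positivity)]
        refine add_le_add (b1.trans (ENNReal.ofReal_le_ofReal b4)) (ENNReal.ofReal_le_ofReal ?_)
        rw [div_mul_eq_mul_div, div_le_iff₀ (by positivity)]
        nlinarith
    _ ≤ ε := by
        rw [← ENNReal.ofReal_add (by positivity) (by positivity), add_halves]
        exact he'

/-- A slowly shrinking scale and the limits of the averages. -/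
theorem scale {ι : Type} (l : Ultrafilter ι) (u : ι → V → W) (c : V) (ρ C : ℝ)
    (hu : ∀ᶠ a in l, ∀ z ∈ ball c ρ, ‖u a z‖ ≤ C) :
    ∃ (l' : Ultrafilter (ℝ × ι)) (U : V → W), Tendsto Prod.fst (l' : Filter (ℝ × ι)) (𝓝[>] 0) ∧
      map Prod.snd (l' : Filter (ℝ × ι)) = l ∧
      (∀ x ∈ ball c ρ, Tendsto (fun q : ℝ × ι => av μ q.1 (u q.2) x) l' (𝓝 (U x))) ∧
      ∀ g : ι → ℝ, Tendsto g l (𝓝 0) →
        Tendsto (fun q : ℝ × ι => g q.2 / μ.real (closedBall (0 : V) q.1)) l' (𝓝 0) := by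
  set F : Filter (ℝ × ι) := (𝓝[>] (0 : ℝ)).curry l with hF
  have : F.NeBot := neBot_iff.2 fun h => by
    have : ∀ᶠ q in F, False := by rw [h]; exact eventually_bot
    exact (eventually_curry_iff.1 this).exists.elim fun _ h => h.exists.elim fun _ h => h
  have h0 := Ultrafilter.of_le F
  set l' := Ultrafilter.of F
  have h1 : Tendsto Prod.fst (l' : Filter (ℝ × ι)) (𝓝[>] 0) :=
    tendsto_fst.mono_left (h0.trans curry_le_prod)
  have h2 : Tendsto Prod.snd (l' : Filter (ℝ × ι)) l :=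
    tendsto_snd.mono_left (h0.trans curry_le_prod)
  obtain ⟨hδ0, hδp⟩ := tendsto_nhdsWithin_iff.1 h1
  have hex : ∀ x ∈ ball c ρ, ∃ w, Tendsto (fun q : ℝ × ι => av μ q.1 (u q.2) x) l' (𝓝 w) :=
    fun x hx => by
    obtain ⟨s, s1, s2⟩ := exists_between (mem_ball.1 hx)
    obtain ⟨w, -, hw⟩ := (isCompact_closedBall (0 : W) C).ultrafilter_le_nhds
      (l'.map fun q => av μ q.1 (u q.2) x) (le_principal_iff.2 (mem_map.2 (by
        filter_upwards [hδ0.eventually (gt_mem_nhds (sub_pos.2 s1)), h2.eventually hu, hδp]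
          with a a1 a2 a3
        exact mem_closedBall_zero_iff.2 (av_le μ (c := c) (ρ := s) a3
          (fun z hz => a2 z (closedBall_subset_ball s2 hz)) (mem_ball.2 (by linarith))))))
    exact ⟨w, hw⟩
  choose! U hU using hex
  exact ⟨l', U, h1, l.unique h2, hU, fun g hg =>
    (Tendsto.curry (la := 𝓝[>] (0 : ℝ)) (f := fun d a => g a / μ.real (closedBall (0 : V) d))
      (Eventually.of_forall fun d => by simpa using hg.div_const _)).mono_left h0⟩

theorem toreal {ι Y : Type} [NormedAddCommGroup Y] {l : Filter ι} {f : ι → V → Y} {c : V}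
    {s : ℝ} (hf : ∀ᶠ a in l, ContinuousOn (f a) (closedBall c s))
    (h : Tendsto (fun a => ∫⁻ z in closedBall c s, ‖f a z‖ₑ ∂μ) l (𝓝 0)) :
    Tendsto (fun a => ∫ z in closedBall c s, ‖f a z‖ ∂μ) l (𝓝 0) := by
  refine ((ENNReal.tendsto_toReal ENNReal.zero_ne_top).comp h).congr' ?_
  filter_upwards [hf] with a ha
  exact (integral_norm_eq_lintegral_enorm (ha.aestronglyMeasurable measurableSet_closedBall)).symm

theorem boot' {U : V → W} {Φ : V × W → V →L[ℝ] W} {S : Set V} (hS : IsOpen S)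
    (hΦ : ∀ z ∈ S, ∀ w, ContDiffAt ℝ ∞ Φ (z, w)) (hU : ∀ z ∈ S, HasFDerivAt U (Φ (z, U z)) z) :
    ContDiffOn ℝ ∞ U S := by
  have hd : DifferentiableOn ℝ U S := fun z hz => (hU z hz).differentiableAt.differentiableWithinAt
  refine contDiffOn_infty.2 fun k => ?_
  induction k with
  | zero => exact contDiffOn_zero.2 hd.continuousOn
  | succ k ih =>
    rw [Nat.cast_succ, contDiffOn_succ_iff_fderiv_of_isOpen hS]
    refine ⟨hd, fun h => absurd h (by simp), ContDiffOn.congr (f := fun z => Φ (z, U z))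
      (fun z hz => ?_) fun z hz => (hU z hz).fderiv⟩
    exact ((hΦ z hz _).of_le (by exact_mod_cast le_top)).comp_contDiffWithinAt z
      (contDiffWithinAt_id.prodMk (ih z hz))

/-- Bounded approximate solutions of a smooth first order system converge in the mean, along an
ultrafilter, to a smooth solution. -/
theorem lim {ι : Type} (l : Ultrafilter ι) (u : ι → V → W) (Φ : V × W → V →L[ℝ] W) (c : V)
    (ρ C : ℝ) (hΦ : ∀ z ∈ ball c ρ, ∀ w, ContDiffAt ℝ ∞ Φ (z, w))
    (hu : ∀ᶠ a in l, ∀ z ∈ ball c ρ, ContDiffAt ℝ 1 (u a) z ∧ ‖u a z‖ ≤ C)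
    (hr : Tendsto (fun a => ∫⁻ z in ball c ρ, ‖fderiv ℝ (u a) z - Φ (z, u a z)‖ₑ ∂μ) l (𝓝 0)) :
    ∃ U : V → W, (∀ z ∈ ball c ρ, ContDiffAt ℝ ∞ U z ∧ HasFDerivAt U (Φ (z, U z)) z) ∧
      ∀ K, IsCompact K → K ⊆ ball c ρ →
        Tendsto (fun a => ∫⁻ z in K, ‖u a z - U z‖ₑ ∂μ) l (𝓝 0) := by
  obtain ⟨l', U, h1, e, hU, hq⟩ := scale μ l u c ρ C (hu.mono fun a ha z hz => (ha z hz).2)
  have h2 : Tendsto Prod.snd (l' : Filter (ℝ × ι)) l := e.le
  have cΦ : ∀ s, s < ρ → ∀ {v : V → W}, ContinuousOn v (closedBall c s) →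
      ContinuousOn (fun z => Φ (z, v z)) (closedBall c s) := fun s hs v hv z hz =>
    ContinuousAt.comp_continuousWithinAt (f := fun z => (z, v z))
      (hΦ z (closedBall_subset_ball hs hz) _).continuousAt
      (continuousWithinAt_id.prodMk (hv z hz))
  have cu : ∀ s, s < ρ → ∀ᶠ a in l, ContinuousOn (u a) (closedBall c s) ∧
      ContinuousOn (fderiv ℝ (u a)) (closedBall c s) := fun s hs => hu.mono fun a ha =>
    ⟨fun z hz => (ha z (closedBall_subset_ball hs hz)).1.continuousAt.continuousWithinAt,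
      cont_fd fun z hz => (ha z (closedBall_subset_ball hs hz)).1⟩
  have hr' : ∀ s, s < ρ → Tendsto (fun a => ∫⁻ z in closedBall c s,
      ‖fderiv ℝ (u a) z - Φ (z, u a z)‖ₑ ∂μ) l (𝓝 0) := fun s hs =>
    tendsto_of_tendsto_of_tendsto_of_le_of_le tendsto_const_nhds hr (fun _ => zero_le)
      fun a => lintegral_mono_set (closedBall_subset_ball hs)
  have k1 : ∀ s, s < ρ → ContinuousOn U (ball c s) ∧ ∀ K, IsCompact K → K ⊆ ball c s →
      Tendsto (fun a => ∫⁻ z in K, ‖u a z - U z‖ₑ ∂μ) l (𝓝 0) := fun s hs => by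
    have hb : closedBall c s ⊆ ball c ρ := closedBall_subset_ball hs
    obtain ⟨L, hL⟩ := ((isCompact_closedBall c s).prod
      (isCompact_closedBall (0 : W) C)).exists_bound_of_continuousOn (f := Φ) fun p hp =>
        (hΦ p.1 (hb hp.1) p.2).continuousAt.continuousWithinAt
    have t := toreal μ ((cu s hs).mono fun a ha => ha.2.sub (cΦ s hs ha.1)) (hr' s hs)
    have := lip0 μ (l' : Filter (ℝ × ι)) (fun q => u q.2)
      (fun q z => ‖fderiv ℝ (u q.2) z - Φ (z, u q.2 z)‖) Prod.fst U c s |L| (abs_nonneg L)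
      (fun _ _ => norm_nonneg _)
      ((h2.eventually (hu.and (cu s hs))).mono fun q hq => ⟨(hq.2.2.sub (cΦ s hs hq.2.1)).norm,
        fun z hz => ⟨(hq.1 z (hb hz)).1, (norm_le_norm_sub_add _ (Φ (z, u q.2 z))).trans
          (add_le_add le_rfl ((hL (z, u q.2 z) ⟨hz, mem_closedBall_zero_iff.2
            (hq.1 z (hb hz)).2⟩).trans (le_abs_self L)))⟩⟩)
      h1 (fun x hx => hU x (ball_subset_ball hs.le hx)) (t.comp h2) (hq _ t)
    refine ⟨this.1, fun K a1 a2 => ?_⟩
    rw [← e]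
    exact tendsto_map'_iff.2 (this.2 K a1 a2)
  have a1 : ∀ z ∈ ball c ρ, HasFDerivAt U (Φ (z, U z)) z := fun z hz => by
    obtain ⟨s, s1, s2⟩ := exists_between (mem_ball.1 hz)
    obtain ⟨s', s3, s4⟩ := exists_between s2
    have hb : closedBall c s ⊆ ball c ρ := closedBall_subset_ball s2
    have cU : ContinuousOn U (closedBall c s) := (k1 s' s4).1.mono (closedBall_subset_ball s3)
    have tU := (k1 s' s4).2 _ (isCompact_closedBall c s) (closedBall_subset_ball s3)
    obtain ⟨D, hD⟩ := (isCompact_closedBall c s).exists_bound_of_continuousOn cU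
    obtain ⟨Λ, hΛ⟩ := ContDiffOn.exists_lipschitzOnWith (f := Φ) (n := 1)
      (s := closedBall c s ×ˢ closedBall (0 : W) (max C D))
      (fun p hp => ((hΦ p.1 (hb hp.1) p.2).of_le (by simp)).contDiffWithinAt) one_ne_zero
      ((convex_closedBall _ _).prod (convex_closedBall _ _))
      ((isCompact_closedBall _ _).prod (isCompact_closedBall _ _))
    set Ψ : V → (W × ℝ) →L[ℝ] V →L[ℝ] (W × ℝ) := fun z => (ContinuousLinearMap.snd ℝ W ℝ).smulRight
      ((ContinuousLinearMap.inl ℝ W ℝ).comp (Φ (z, U z))) with hΨ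
    have cΨ : ContinuousOn Ψ (closedBall c s) :=
      ((ContinuousLinearMap.smulRightL ℝ (W × ℝ) (V →L[ℝ] (W × ℝ))
        (ContinuousLinearMap.snd ℝ W ℝ)).continuous.comp_continuousOn
          (continuousOn_const.clm_comp (cΦ s s2 cU)))
    have fd : ∀ᶠ a in l, ∀ z ∈ closedBall c s, fderiv ℝ (fun z => (u a z, (1 : ℝ))) z - Ψ z (u a z, 1) =
        (ContinuousLinearMap.inl ℝ W ℝ).comp (fderiv ℝ (u a) z - Φ (z, U z)) := hu.mono
      fun a ha z hz => by
        rw [(((ha z (hb hz)).1.differentiableAt one_ne_zero).hasFDerivAt.prodMk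
          (hasFDerivAt_const (1 : ℝ) z)).fderiv]
        ext v <;> simp [hΨ]
    have t0 : Tendsto (fun a => ∫⁻ z in closedBall c s,
        ‖fderiv ℝ (fun z => (u a z, (1 : ℝ))) z - Ψ z (u a z, 1)‖ₑ ∂μ) l (𝓝 0) := by
      have t1 := (hr' s s2).add (ENNReal.Tendsto.const_mul (a := (Λ : ℝ≥0∞)) tU
        (Or.inr ENNReal.coe_ne_top))
      rw [mul_zero, add_zero] at t1
      refine tendsto_of_tendsto_of_tendsto_of_le_of_le' tendsto_const_nhds t1
        (Eventually.of_forall fun _ => zero_le) ?_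
      filter_upwards [fd, hu, cu s s2] with a a1 a2 a3
      have m1 : AEMeasurable (fun z => ‖fderiv ℝ (u a) z - Φ (z, u a z)‖ₑ)
          (μ.restrict (closedBall c s)) :=
        ((a3.2.sub (cΦ s s2 a3.1)).aestronglyMeasurable measurableSet_closedBall).enorm
      rw [← lintegral_const_mul' _ _ ENNReal.coe_ne_top, ← lintegral_add_left' m1]
      refine setLIntegral_mono' measurableSet_closedBall fun z hz => ?_
      have b1 := hΛ (x := (z, u a z)) (y := (z, U z))
        ⟨hz, mem_closedBall_zero_iff.2 ((a2 z (hb hz)).2.trans (le_max_left _ _))⟩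
        ⟨hz, mem_closedBall_zero_iff.2 ((hD z hz).trans (le_max_right _ _))⟩
      rw [Prod.edist_eq, edist_self, max_eq_right zero_le, edist_eq_enorm_sub,
        edist_eq_enorm_sub] at b1
      rw [a1 z hz]
      have b2 : ‖(ContinuousLinearMap.inl ℝ W ℝ).comp (fderiv ℝ (u a) z - Φ (z, U z))‖ₑ ≤
          ‖fderiv ℝ (u a) z - Φ (z, U z)‖ₑ := by
        rw [← ofReal_norm, ← ofReal_norm]
        refine ENNReal.ofReal_le_ofReal (ContinuousLinearMap.opNorm_le_bound _ (norm_nonneg _)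
          fun v => ?_)
        simpa using (fderiv ℝ (u a) z - Φ (z, U z)).le_opNorm v
      refine b2.trans ?_
      rw [← sub_add_sub_cancel _ (Φ (z, u a z))]
      refine (enorm_add_le (fderiv ℝ (u a) z - Φ (z, u a z)) (Φ (z, u a z) - Φ (z, U z))).trans ?_
      exact add_le_add_right b1 _
    have hu' : ∀ᶠ a in l, ∀ z ∈ closedBall c s, ContDiffAt ℝ 1 (fun z => (u a z, (1 : ℝ))) z ∧
        ‖(u a z, (1 : ℝ))‖ ≤ max C 1 := hu.mono fun a ha z hz =>
      ⟨(ha z (hb hz)).1.prodMk contDiffAt_const, by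
        rw [Prod.norm_def]; exact max_le_max (ha z (hb hz)).2 norm_one.le⟩
    have t := toreal μ ((hu'.and (cu s s2)).mono fun a ha => (cont_fd fun z hz =>
      (ha.1 z hz).1).sub (cΨ.clm_apply (ha.2.1.prodMk continuousOn_const))) t0
    have := (lim0 μ (l' : Filter (ℝ × ι)) (fun q z => (u q.2 z, (1 : ℝ))) Prod.fst
      (fun z => (U z, 1)) Ψ c s (max C 1) cΨ (h2.eventually hu') h1 (fun x hx => ?_) (t.comp h2)
      (hq _ t)).1 z s1
    · have := (ContinuousLinearMap.fst ℝ W ℝ).hasFDerivAt.comp z this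
      refine this.congr_fderiv ?_
      ext v; simp [hΨ]
    · obtain ⟨s₀, b1, b2⟩ := exists_between (mem_ball.1 hx)
      obtain ⟨hδ0, hδp⟩ := tendsto_nhdsWithin_iff.1 h1
      refine ((hU x (ball_subset_ball s2.le hx)).prodMk_nhds
        (tendsto_const_nhds (x := (1 : ℝ)))).congr' ?_
      filter_upwards [hδ0.eventually (gt_mem_nhds (sub_pos.2 (mem_ball.1 hx))), hδp,
        h2.eventually (cu s s2)] with q q1 q2 q3
      have i1 := int_add μ q3.1 (δ := q.1) (x := x) (mem_ball.2 (by linarith))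
      have i2 : IntegrableOn (fun _ : V => (1 : ℝ)) (closedBall (0 : V) q.1) μ :=
        integrableOn_const (isCompact_closedBall _ _).measure_lt_top.ne
      rw [av, av, integral_pair i1 i2, setIntegral_const, Prod.smul_mk,
        inv_smul_smul₀ (vol_pos μ q2).ne']
  refine ⟨U, fun z hz => ⟨(boot' isOpen_ball hΦ a1).contDiffAt (isOpen_ball.mem_nhds hz),
    a1 z hz⟩, fun K a2 a3 => ?_⟩
  obtain ⟨s, hs, h3⟩ := exists_lt_subset_ball a2.isClosed a3
  exact (k1 s hs).2 K a2 h3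

end Pool.Agent.Lib.HN53
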